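import Pool.Agent.Q93.FullMono.Defs

/-!
The main construction: a lacunary sum of geometric weights.
-/

namespace Q93.FullMono

open Topology Filter

/-- The weights `l n = ∑ j, (1 - t j) * t j ^ n`. -/
noncomputable def wt (t : ℕ → ℝ) (n : ℕ) : ℝ := ∑' j, (1 - t j) * t j ^ n

/-- The Abel mean. -/
noncomputable def abel (u : ℕ → ℝ) (t : ℝ) : ℝ := (1 - t) * ∑' k, u k * t ^ k

/-- `t` is a lacunary sequence in `(0,1)`. -/
structure Lac (t : ℕ → ℝ) : Prop where
  pos : ∀ j, 0 < t j
  lt_one : ∀ j, t j < 1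
  half : ∀ j, 1 - t (j + 1) ≤ (1 - t j) / 2

namespace Lac

variable {t : ℕ → ℝ} (ht : Lac t)

include ht

theorem geom_bound (j : ℕ) : 1 - t j ≤ (1 / 2 : ℝ) ^ j := by
  induction j with
  | zero => have := ht.pos 0; simp; linarith
  | succ j ih =>
    have := ht.half j
    rw [pow_succ]
    linarith

theorem summable_pow (k n : ℕ) : Summable fun j => (1 - t j) ^ (k + 1) * t j ^ n := by
  refine Summable.of_nonneg_of_le (fun j => ?_) (fun j => ?_) summable_geometric_two
  · have h1 := ht.pos j
    have h2 := ht.lt_one j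
    have h3 : 0 ≤ 1 - t j := by linarith
    positivity
  · have h1 := ht.pos j
    have h2 := ht.lt_one j
    have h3 : 0 ≤ 1 - t j := by linarith
    have h4 : t j ^ n ≤ 1 := pow_le_one₀ h1.le h2.le
    have h5 : (1 - t j) ^ (k + 1) ≤ 1 - t j := by
      rw [pow_succ]
      have : (1 - t j) ^ k ≤ 1 := pow_le_one₀ h3 (by linarith)
      nlinarith
    calc (1 - t j) ^ (k + 1) * t j ^ n ≤ (1 - t j) * 1 := by gcongr
      _ ≤ (1 / 2 : ℝ) ^ j := by rw [mul_one]; exact ht.geom_bound j

theorem summable_wt (n : ℕ) : Summable fun j => (1 - t j) * t j ^ n := by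
  simpa using ht.summable_pow 0 n

theorem diffs_wt (k : ℕ) : ∀ n, diffs (wt t) k n = ∑' j, (1 - t j) ^ (k + 1) * t j ^ n := by
  induction k with
  | zero => intro n; simp [diffs, wt]
  | succ k ih =>
    intro n
    have h1 : diffs (wt t) (k + 1) n = diffs (wt t) k n - diffs (wt t) k (n + 1) := rfl
    rw [h1, ih, ih, ← (ht.summable_pow k n).tsum_sub (ht.summable_pow k (n + 1))]
    apply tsum_congr
    intro j
    ring

theorem fullyMonotonic : FullyMonotonic (wt t) := by
  intro k n _
  rw [ht.diffs_wt]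
  apply tsum_nonneg
  intro j
  have h1 := ht.pos j
  have h2 := ht.lt_one j
  have h3 : 0 ≤ 1 - t j := by linarith
  positivity

theorem wt_pos (n : ℕ) : 0 < wt t n := by
  have h0 : ∀ j, 0 < (1 - t j) * t j ^ n := fun j =>
    mul_pos (by linarith [ht.lt_one j]) (pow_pos (ht.pos j) n)
  exact (ht.summable_wt n).tsum_pos (fun j => (h0 j).le) 0 (h0 0)

/-- The partial sums of the weights. -/
theorem hasSum_W (n : ℕ) : HasSum (fun j => 1 - t j ^ n) (∑ k ∈ Finset.range n, wt t k) := by
  have h := hasSum_sum (f := fun k j => (1 - t j) * t j ^ k) (a := wt t)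
    (s := Finset.range n) fun k _ => (ht.summable_wt k).hasSum
  convert h using 2 with j
  rw [← Finset.mul_sum, mul_comm, geom_sum_mul_neg]

theorem hasSum_B (u : ℕ → ℝ) (n : ℕ) :
    HasSum (fun j => (1 - t j) * ∑ k ∈ Finset.range n, u k * t j ^ k)
      (∑ k ∈ Finset.range n, wt t k * u k) := by
  have h := hasSum_sum (f := fun k j => ((1 - t j) * t j ^ k) * u k)
    (a := fun k => wt t k * u k)
    (s := Finset.range n) fun k _ => ((ht.summable_wt k).hasSum.mul_right (u k))
  convert h using 2 with j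
  rw [Finset.mul_sum]
  apply Finset.sum_congr rfl
  intro k _
  ring

theorem min_le (n : ℕ) (hn : 0 < n) (j : ℕ) :
    min (1 - t j ^ n) (t j ^ n) ≤ 6 * ((n * (1 - t j)) / (1 + n * (1 - t j)) -
      (n * (1 - t (j + 1))) / (1 + n * (1 - t (j + 1)))) := by
  have hn' : (0 : ℝ) < n := by exact_mod_cast hn
  have h1 := ht.pos j
  have h2 := ht.lt_one j
  have h3 := ht.lt_one (j + 1)
  have h4 := ht.half j
  set y := (n : ℝ) * (1 - t j) with hy
  set z := (n : ℝ) * (1 - t (j + 1)) with hz
  have hy0 : 0 < y := mul_pos hn' (by linarith)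
  have hz0 : 0 < z := mul_pos hn' (by linarith)
  have hzy : z ≤ y / 2 := by
    rw [hy, hz]
    have := mul_le_mul_of_nonneg_left h4 hn'.le
    linarith
  have hg : y / ((1 + y) * (2 + y)) ≤ y / (1 + y) - z / (1 + z) := by
    have e1 : z / (1 + z) ≤ (y / 2) / (1 + y / 2) := by
      rw [div_le_div_iff₀ (by positivity) (by positivity)]
      nlinarith
    have e2 : y / (1 + y) - (y / 2) / (1 + y / 2) = y / ((1 + y) * (2 + y)) := by
      field_simp
      ring
    linarith
  have hx1 : 1 - t j ^ n ≤ y := by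
    have := one_add_mul_le_pow (a := -(1 - t j)) (by linarith) n
    have e : (1 + -(1 - t j)) = t j := by ring
    rw [e] at this
    rw [hy]
    linarith
  have hx2 : t j ^ n ≤ 1 / y := by
    have e1 : t j ≤ Real.exp (-(1 - t j)) := by
      have := Real.add_one_le_exp (-(1 - t j))
      linarith
    have e2 : t j ^ n ≤ Real.exp (-y) := by
      calc t j ^ n ≤ (Real.exp (-(1 - t j))) ^ n := by gcongr
        _ = Real.exp (-y) := by rw [← Real.exp_nat_mul]; congr 1; rw [hy]; ring
    have e3 : Real.exp (-y) ≤ 1 / y := by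
      rw [Real.exp_neg, ← one_div]
      apply one_div_le_one_div_of_le hy0
      have := Real.add_one_le_exp y
      linarith
    exact e2.trans e3
  have hfin : min (1 - t j ^ n) (t j ^ n) ≤ 6 * (y / ((1 + y) * (2 + y))) := by
    rcases le_total y 1 with h | h
    · refine (min_le_left _ _).trans (hx1.trans ?_)
      rw [mul_div_assoc', le_div_iff₀ (by positivity)]
      have e6 : (1 + y) * (2 + y) ≤ 6 := by nlinarith
      nlinarith [mul_le_mul_of_nonneg_left e6 hy0.le]
    · refine (min_le_right _ _).trans (hx2.trans ?_)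
      rw [mul_div_assoc', div_le_div_iff₀ hy0 (by positivity)]
      nlinarith
  linarith

theorem sum_min_le (n : ℕ) (hn : 0 < n) (J : ℕ) :
    ∑ j ∈ Finset.range J, min (1 - t j ^ n) (t j ^ n) ≤ 6 := by
  have hn' : (0 : ℝ) < n := by exact_mod_cast hn
  have h1 : ∑ j ∈ Finset.range J, min (1 - t j ^ n) (t j ^ n) ≤
      ∑ j ∈ Finset.range J, 6 * ((n * (1 - t j)) / (1 + n * (1 - t j)) -
      (n * (1 - t (j + 1))) / (1 + n * (1 - t (j + 1)))) :=
    Finset.sum_le_sum fun j _ => ht.min_le n hn j
  rw [← Finset.mul_sum, Finset.sum_range_sub'] at h1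
  have h2 : ∀ j, 0 ≤ (n * (1 - t j)) / (1 + n * (1 - t j)) := by
    intro j
    have : 0 < 1 - t j := by linarith [ht.lt_one j]
    positivity
  have h3 : (n * (1 - t 0)) / (1 + n * (1 - t 0)) ≤ 1 := by
    have : 0 < 1 - t 0 := by linarith [ht.lt_one 0]
    rw [div_le_one (by positivity)]
    linarith
  have := h2 J
  linarith

theorem tendsto_W : Tendsto (fun n => ∑ k ∈ Finset.range n, wt t k) atTop atTop := by
  rw [tendsto_atTop]
  intro b
  obtain ⟨J, hJ⟩ := exists_nat_gt b
  have h1 : Tendsto (fun n : ℕ => ∑ j ∈ Finset.range J, (1 - t j ^ n)) atTop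
      (𝓝 (∑ j ∈ Finset.range J, (1 - 0))) := by
    apply tendsto_finset_sum
    intro j _
    exact (tendsto_pow_atTop_nhds_zero_of_lt_one (ht.pos j).le (ht.lt_one j)).const_sub 1
  have h2 : (∑ j ∈ Finset.range J, ((1 : ℝ) - 0)) = J := by simp
  rw [h2] at h1
  filter_upwards [h1.eventually_const_lt hJ] with n hn
  refine hn.le.trans ?_
  refine sum_le_hasSum _ (fun j _ => ?_) (ht.hasSum_W n)
  have : t j ^ n ≤ 1 := pow_le_one₀ (ht.pos j).le (ht.lt_one j).le
  linarith

/-- If the Abel means of a bounded sequence `u` tend to `0` along `t`, so do the weighted means. -/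
theorem tendsto_mean {u : ℕ → ℝ} {D : ℝ} (hD : ∀ k, |u k| ≤ D)
    (hA : Tendsto (fun j => abel u (t j)) atTop (𝓝 0)) :
    Tendsto (fun n => (∑ k ∈ Finset.range n, wt t k * u k) / ∑ k ∈ Finset.range n, wt t k)
      atTop (𝓝 0) := by
  have hD0 : 0 ≤ D := (abs_nonneg _).trans (hD 0)
  have hsum : ∀ x : ℝ, 0 ≤ x → x < 1 → Summable fun k => u k * x ^ k := by
    intro x hx0 hx1
    refine Summable.of_norm_bounded ((summable_geometric_of_lt_one hx0 hx1).mul_left D) ?_
    intro k
    rw [Real.norm_eq_abs, abs_mul, abs_pow, abs_of_nonneg hx0]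
    gcongr
    exact hD k
  have hB1 : ∀ j n, |(1 - t j) * ∑ k ∈ Finset.range n, u k * t j ^ k| ≤ D * (1 - t j ^ n) := by
    intro j n
    have h1 := ht.pos j
    have h2 : 0 < 1 - t j := by linarith [ht.lt_one j]
    rw [abs_mul, abs_of_pos h2]
    calc (1 - t j) * |∑ k ∈ Finset.range n, u k * t j ^ k|
        ≤ (1 - t j) * ∑ k ∈ Finset.range n, D * t j ^ k := by
          gcongr
          refine (Finset.abs_sum_le_sum_abs _ _).trans (Finset.sum_le_sum fun k _ => ?_)
          rw [abs_mul, abs_pow, abs_of_pos h1]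
          gcongr
          exact hD k
      _ = D * (1 - t j ^ n) := by
          rw [← Finset.mul_sum, ← geom_sum_mul_neg (t j) n]
          ring
  have hB2 : ∀ j n, |(1 - t j) * ∑ k ∈ Finset.range n, u k * t j ^ k| ≤
      |abel u (t j)| + D * t j ^ n := by
    intro j n
    have h1 := ht.pos j
    have h2 : 0 < 1 - t j := by linarith [ht.lt_one j]
    have h3 := (hsum (t j) h1.le (ht.lt_one j)).sum_add_tsum_nat_add n
    have h4 : |∑' k, u (k + n) * t j ^ (k + n)| ≤ D * t j ^ n / (1 - t j) := by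
      have h5 : HasSum (fun k => D * t j ^ (k + n)) (D * t j ^ n / (1 - t j)) := by
        have h := (hasSum_geometric_of_lt_one h1.le (ht.lt_one j)).mul_left (D * t j ^ n)
        have e : (fun k => D * t j ^ (k + n)) = fun k => D * t j ^ n * t j ^ k := by
          funext k; ring
        rw [e, div_eq_mul_inv]
        exact h
      have := tsum_of_norm_bounded h5 (f := fun k => u (k + n) * t j ^ (k + n)) (fun k => by
        rw [Real.norm_eq_abs, abs_mul, abs_pow, abs_of_pos h1]
        gcongr
        exact hD _)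
      rwa [Real.norm_eq_abs] at this
    have h6 : (1 - t j) * ∑ k ∈ Finset.range n, u k * t j ^ k =
        abel u (t j) - (1 - t j) * ∑' k, u (k + n) * t j ^ (k + n) := by
      rw [abel, ← h3]; ring
    rw [h6]
    refine (abs_sub _ _).trans ?_
    rw [abs_mul, abs_of_pos h2]
    have h7 : (1 - t j) * |∑' k, u (k + n) * t j ^ (k + n)| ≤ D * t j ^ n := by
      calc (1 - t j) * |∑' k, u (k + n) * t j ^ (k + n)|
          ≤ (1 - t j) * (D * t j ^ n / (1 - t j)) := by gcongr
        _ = D * t j ^ n := by field_simp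
    linarith
  rw [Metric.tendsto_atTop] at hA
  -- the key estimate
  have hkey : ∀ ε : ℝ, 0 < ε → ∃ Q : ℝ, ∀ n : ℕ, 0 < n →
      |∑ k ∈ Finset.range n, wt t k * u k| ≤ ε * ∑ k ∈ Finset.range n, wt t k + Q := by
    intro ε hε
    obtain ⟨J₀, hJ₀⟩ := hA ε hε
    refine ⟨D * J₀ + (D + ε) * 6, fun n hn => ?_⟩
    have hterm : ∀ j, |(1 - t j) * ∑ k ∈ Finset.range n, u k * t j ^ k| ≤
        (if j < J₀ then D else 0) + (ε * (1 - t j ^ n) +
          (D + ε) * min (1 - t j ^ n) (t j ^ n)) := by
      intro j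
      have hx0 : 0 ≤ t j ^ n := by have := ht.pos j; positivity
      have hx1 : t j ^ n ≤ 1 := pow_le_one₀ (ht.pos j).le (ht.lt_one j).le
      have hb1 := hB1 j n
      have hb2 := hB2 j n
      by_cases hj : j < J₀
      · rw [if_pos hj]
        have h1 : 0 ≤ ε * (1 - t j ^ n) := mul_nonneg hε.le (by linarith)
        have h2 : 0 ≤ (D + ε) * min (1 - t j ^ n) (t j ^ n) :=
          mul_nonneg (by linarith) (le_min (by linarith) hx0)
        have h3 : D * (1 - t j ^ n) ≤ D := by nlinarith
        linarith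
      · rw [if_neg hj]
        have h1 : |abel u (t j)| < ε := by
          have := hJ₀ j (by omega)
          rwa [Real.dist_eq, sub_zero] at this
        rcases le_total (1 - t j ^ n) (t j ^ n) with h | h
        · rw [min_eq_left h]
          have h2 : 0 ≤ 1 - t j ^ n := by linarith
          nlinarith
        · rw [min_eq_right h]
          nlinarith
    have hpartial : ∀ J, ∑ j ∈ Finset.range J,
        |(1 - t j) * ∑ k ∈ Finset.range n, u k * t j ^ k| ≤
        ε * ∑ k ∈ Finset.range n, wt t k + (D * J₀ + (D + ε) * 6) := by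
      intro J
      refine (Finset.sum_le_sum fun j _ => hterm j).trans ?_
      rw [Finset.sum_add_distrib, Finset.sum_add_distrib, ← Finset.mul_sum, ← Finset.mul_sum]
      have h1 : ∑ j ∈ Finset.range J, (if j < J₀ then D else 0) ≤ D * J₀ := by
        rw [← Finset.sum_filter, Finset.sum_const, nsmul_eq_mul, mul_comm]
        gcongr
        refine (Finset.card_le_card (t := Finset.range J₀) ?_).trans (by simp)
        intro j hj
        simp only [Finset.mem_filter, Finset.mem_range] at hj ⊢
        exact hj.2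
      have h2 : ∑ j ∈ Finset.range J, (1 - t j ^ n) ≤ ∑ k ∈ Finset.range n, wt t k := by
        refine sum_le_hasSum _ (fun j _ => ?_) (ht.hasSum_W n)
        have : t j ^ n ≤ 1 := pow_le_one₀ (ht.pos j).le (ht.lt_one j).le
        linarith
      have h3 := ht.sum_min_le n hn J
      have h4 : ε * ∑ j ∈ Finset.range J, (1 - t j ^ n) ≤ ε * ∑ k ∈ Finset.range n, wt t k := by
        gcongr
      have h5 : (D + ε) * ∑ j ∈ Finset.range J, min (1 - t j ^ n) (t j ^ n) ≤ (D + ε) * 6 := by
        gcongr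
      linarith
    have hlim := (ht.hasSum_B u n).tendsto_sum_nat.abs
    refine le_of_tendsto hlim (Eventually.of_forall fun J => ?_)
    exact (Finset.abs_sum_le_sum_abs _ _).trans (hpartial J)
  rw [Metric.tendsto_atTop]
  intro ε hε
  obtain ⟨Q, hQ⟩ := hkey (ε / 2) (by positivity)
  have hW := ht.tendsto_W
  obtain ⟨N, hN⟩ := (tendsto_atTop.1 hW (2 * |Q| / ε + 1)).exists_forall_of_atTop
  refine ⟨N + 1, fun n hn => ?_⟩
  have hWn := hN n (by omega)
  set W := ∑ k ∈ Finset.range n, wt t k with hWdef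
  have hWpos : 0 < W := by
    have : 0 ≤ 2 * |Q| / ε := by positivity
    linarith
  rw [Real.dist_eq, sub_zero, abs_div, abs_of_pos hWpos, div_lt_iff₀ hWpos]
  have h1 := hQ n (by omega)
  have h2 : |Q| < ε / 2 * W := by
    have h3 : 2 * |Q| / ε < W := by linarith
    rw [div_lt_iff₀ hε] at h3
    linarith
  have h3 := le_abs_self Q
  linarith

end Lac

end Q93.FullMono
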