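import Mathlib

/-!
Weighted means of bounded sequences: definitions. Sequences are indexed by `ℕ` starting at `0`, so
that the term with index `n` here is the term with index `n + 1` in the text.
-/

namespace Q93.FullMono

open Topology Filter

/-- The iterated differences of `l`: `diffs l 0 = l` and
`diffs l (k + 1) n = diffs l k n - diffs l k (n + 1)`. -/
def diffs (l : ℕ → ℝ) : ℕ → ℕ → ℝ
  | 0 => l
  | k + 1 => fun n => diffs l k n - diffs l k (n + 1)

/-- The sequence `l` is fully monotonic: all iterated differences of order at least `1` are
nonnegative. -/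
def FullyMonotonic (l : ℕ → ℝ) : Prop := ∀ k n, 1 ≤ k → 0 ≤ diffs l k n

/-- `l` is admissible for `s` with limit `L` of the weighted means: all `l n` are positive, their
sum diverges, and the weighted means of `s` with weights `l` converge to `L`. -/
def AdmissibleWith (l s : ℕ → ℝ) (L : ℝ) : Prop :=
  (∀ n, 0 < l n) ∧ Tendsto (fun n => ∑ k ∈ Finset.range n, l k) atTop atTop ∧
    Tendsto (fun n => (∑ k ∈ Finset.range n, l k * s k) / ∑ k ∈ Finset.range n, l k) atTop (𝓝 L)

end Q93.FullMono
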