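import Pool.Agent.Q93.FullMono.Basic

/-!
Existence of fully monotonic admissible weights.
-/

namespace Q93.FullMono

open Topology Filter

theorem summable_mul_pow {s : ℕ → ℝ} {C : ℝ} (hC : ∀ k, |s k| ≤ C) {x : ℝ} (hx0 : 0 ≤ x)
    (hx1 : x < 1) : Summable fun k => s k * x ^ k := by
  refine Summable.of_norm_bounded ((summable_geometric_of_lt_one hx0 hx1).mul_left C) ?_
  intro k
  rw [Real.norm_eq_abs, abs_mul, abs_pow, abs_of_nonneg hx0]
  gcongr
  exact hC k

theorem abs_abel_le {s : ℕ → ℝ} {C : ℝ} (hC : ∀ k, |s k| ≤ C) {x : ℝ} (hx0 : 0 ≤ x)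
    (hx1 : x < 1) : |abel s x| ≤ C := by
  have h0 : 0 < 1 - x := by linarith
  have h1 : |∑' k, s k * x ^ k| ≤ C * (1 - x)⁻¹ := by
    have := tsum_of_norm_bounded ((hasSum_geometric_of_lt_one hx0 hx1).mul_left C)
      (f := fun k => s k * x ^ k) (fun k => by
        rw [Real.norm_eq_abs, abs_mul, abs_pow, abs_of_nonneg hx0]
        gcongr
        exact hC k)
    rwa [Real.norm_eq_abs] at this
  rw [abel, abs_mul, abs_of_pos h0]
  calc (1 - x) * |∑' k, s k * x ^ k| ≤ (1 - x) * (C * (1 - x)⁻¹) := by gcongr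
    _ = C := by field_simp

theorem abel_sub_const {s : ℕ → ℝ} {C : ℝ} (hC : ∀ k, |s k| ≤ C) (L : ℝ) {x : ℝ} (hx0 : 0 ≤ x)
    (hx1 : x < 1) : abel (fun k => s k - L) x = abel s x - L := by
  have h0 : 0 < 1 - x := by linarith
  have h1 : ∑' k, (s k - L) * x ^ k = ∑' k, s k * x ^ k - L * (1 - x)⁻¹ := by
    rw [← tsum_geometric_of_lt_one hx0 hx1, ← tsum_mul_left,
      ← (summable_mul_pow hC hx0 hx1).tsum_sub
        ((summable_geometric_of_lt_one hx0 hx1).mul_left L)]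
    apply tsum_congr
    intro k
    ring
  rw [abel, h1, abel]
  field_simp

theorem exists_weights {s : ℕ → ℝ} {C : ℝ} (hC : ∀ k, |s k| ≤ C) {m : ℕ → ℕ}
    (hm : StrictMono m) (hm2 : ∀ i, 2 ≤ m i) :
    ∃ (l : ℕ → ℝ) (L : ℝ), FullyMonotonic l ∧ AdmissibleWith l s L ∧
      ∃ φ : ℕ → ℕ, StrictMono φ ∧ Tendsto (fun i => abel s (1 - 1 / (m (φ i) : ℝ))) atTop (𝓝 L) := by
  have hm0 : ∀ i, (2 : ℝ) ≤ m i := fun i => by exact_mod_cast hm2 i
  have hx0 : ∀ i, 0 < 1 - 1 / (m i : ℝ) := by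
    intro i
    have h1 : 1 / (m i : ℝ) ≤ 1 / 2 := one_div_le_one_div_of_le (by norm_num) (hm0 i)
    linarith
  have hx1 : ∀ i, 1 - 1 / (m i : ℝ) < 1 := by
    intro i
    have : 0 < 1 / (m i : ℝ) := by have := hm0 i; positivity
    linarith
  have hbd : ∀ i, abel s (1 - 1 / (m i : ℝ)) ∈ Set.Icc (-C) C := by
    intro i
    exact abs_le.1 (abs_abel_le hC (hx0 i).le (hx1 i))
  obtain ⟨L, -, φ, hφ, hlim⟩ := isCompact_Icc.tendsto_subseq hbd
  let k : ℕ → ℕ := fun j => Nat.rec 0 (fun _ a => 2 * m (φ a)) j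
  have hk0 : ∀ j, k (j + 1) = 2 * m (φ (k j)) := fun j => rfl
  have hkm : StrictMono k := by
    apply strictMono_nat_of_lt_succ
    intro j
    rw [hk0]
    have h1 : k j ≤ φ (k j) := hφ.id_le _
    have h2 : φ (k j) ≤ m (φ (k j)) := hm.id_le _
    have h3 := hm2 (φ (k j))
    omega
  have hmm : ∀ j, 2 * m (φ (k j)) ≤ m (φ (k (j + 1))) := by
    intro j
    have h1 : k (j + 1) ≤ φ (k (j + 1)) := hφ.id_le _
    have h2 : φ (k (j + 1)) ≤ m (φ (k (j + 1))) := hm.id_le _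
    rw [hk0] at h1
    rw [hk0] at h2 ⊢
    omega
  set t : ℕ → ℝ := fun j => 1 - 1 / (m (φ (k j)) : ℝ) with htdef
  have ht : Lac t := by
    refine ⟨fun j => hx0 _, fun j => hx1 _, fun j => ?_⟩
    have h1 : (2 : ℝ) * m (φ (k j)) ≤ m (φ (k (j + 1))) := by exact_mod_cast hmm j
    have h2 := hm0 (φ (k j))
    have h3 : 1 / (m (φ (k (j + 1))) : ℝ) ≤ 1 / (2 * m (φ (k j))) :=
      one_div_le_one_div_of_le (by positivity) h1
    have h4 : 1 / (2 * (m (φ (k j)) : ℝ)) = 1 / (m (φ (k j)) : ℝ) / 2 := by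
      field_simp
    simp only [htdef]
    linarith
  have hCL : ∀ k, |s k - L| ≤ C + |L| := fun k => (abs_sub _ _).trans (by gcongr; exact hC k)
  have hlim' : Tendsto (fun j => abel (fun k => s k - L) (t j)) atTop (𝓝 0) := by
    have h1 : Tendsto (fun j => abel s (t j)) atTop (𝓝 L) := hlim.comp hkm.tendsto_atTop
    have h2 : (fun j => abel (fun k => s k - L) (t j)) = fun j => abel s (t j) - L := by
      funext j
      exact abel_sub_const hC L (hx0 _).le (hx1 _)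
    rw [h2]
    simpa using h1.sub_const L
  have hmean := ht.tendsto_mean hCL hlim'
  refine ⟨wt t, L, ht.fullyMonotonic, ⟨ht.wt_pos, ht.tendsto_W, ?_⟩, φ, hφ, hlim⟩
  have h3 := hmean.add_const L
  rw [zero_add] at h3
  refine h3.congr' ?_
  filter_upwards [eventually_gt_atTop 0] with n hn
  have hW : 0 < ∑ k ∈ Finset.range n, wt t k :=
    Finset.sum_pos (fun k _ => ht.wt_pos k) ⟨0, Finset.mem_range.2 hn⟩
  have h4 : ∑ k ∈ Finset.range n, wt t k * (s k - L) =
      ∑ k ∈ Finset.range n, wt t k * s k - (∑ k ∈ Finset.range n, wt t k) * L := by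
    rw [Finset.sum_mul, ← Finset.sum_sub_distrib]
    apply Finset.sum_congr rfl
    intro k _
    ring
  rw [h4]
  field_simp
  ring

/-- A sequence that is `1` on `[p, 64 p)` has Abel mean at least `3/4` at `1 - 1/(8p)`. -/
theorem abel_ge {s : ℕ → ℝ} (h0 : ∀ k, 0 ≤ s k) (h1 : ∀ k, s k ≤ 1) {p : ℕ} (hp : 0 < p)
    (hs : ∀ k, p ≤ k → k < 64 * p → s k = 1) :
    3 / 4 ≤ abel s (1 - 1 / ((8 * p : ℕ) : ℝ)) := by
  have hp' : (1 : ℝ) ≤ p := by exact_mod_cast hp
  set x : ℝ := 1 - 1 / ((8 * p : ℕ) : ℝ) with hx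
  have hcast : ((8 * p : ℕ) : ℝ) = 8 * p := by push_cast; ring
  rw [hcast] at hx
  have hd : 0 < 1 / (8 * (p : ℝ)) := by positivity
  have hd1 : 1 / (8 * (p : ℝ)) ≤ 1 / 8 := one_div_le_one_div_of_le (by norm_num) (by linarith)
  have hx0 : 0 < x := by rw [hx]; linarith
  have hx1 : x < 1 := by rw [hx]; linarith
  have hC : ∀ k, |s k| ≤ 1 := fun k => abs_le.2 ⟨by linarith [h0 k], h1 k⟩
  have hsum := summable_mul_pow hC hx0.le hx1
  have h2 : ∑ k ∈ Finset.Ico p (64 * p), s k * x ^ k ≤ ∑' k, s k * x ^ k :=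
    hsum.sum_le_tsum _ fun k _ => mul_nonneg (h0 k) (by positivity)
  have h3 : ∑ k ∈ Finset.Ico p (64 * p), s k * x ^ k = ∑ k ∈ Finset.Ico p (64 * p), x ^ k := by
    apply Finset.sum_congr rfl
    intro k hk
    rw [Finset.mem_Ico] at hk
    rw [hs k hk.1 hk.2, one_mul]
  have h4 : (1 - x) * ∑ k ∈ Finset.Ico p (64 * p), x ^ k = x ^ p - x ^ (64 * p) := by
    have := geom_sum_Ico_mul x (show p ≤ 64 * p by omega)
    linarith
  have h5 : x ^ p - x ^ (64 * p) ≤ abel s x := by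
    rw [abel, ← h4, ← h3]
    have : 0 < 1 - x := by linarith
    gcongr
  have h6 : 7 / 8 ≤ x ^ p := by
    have := one_add_mul_le_pow (a := -(1 / (8 * (p : ℝ)))) (by linarith) p
    have e : (1 + -(1 / (8 * (p : ℝ)))) = x := by rw [hx]; ring
    rw [e] at this
    have e2 : 1 + (p : ℝ) * -(1 / (8 * (p : ℝ))) = 7 / 8 := by field_simp; ring
    linarith
  have h7 : x ^ (64 * p) ≤ 1 / 8 := by
    have e1 : x ≤ Real.exp (-(1 / (8 * (p : ℝ)))) := by
      have := Real.add_one_le_exp (-(1 / (8 * (p : ℝ))))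
      rw [hx]; linarith
    have e2 : x ^ (64 * p) ≤ Real.exp (-8) := by
      calc x ^ (64 * p) ≤ (Real.exp (-(1 / (8 * (p : ℝ))))) ^ (64 * p) := by gcongr
        _ = Real.exp (-8) := by
          rw [← Real.exp_nat_mul]; congr 1; push_cast; field_simp; norm_num
    have e3 : Real.exp (-8) ≤ 1 / 8 := by
      rw [Real.exp_neg, ← one_div]
      apply one_div_le_one_div_of_le (by norm_num)
      have := Real.add_one_le_exp (8 : ℝ)
      linarith
    exact e2.trans e3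
  linarith

theorem exists_two_limits : ∃ s : ℕ → ℝ, (∀ k, s k = 0 ∨ s k = 1) ∧
    ∃ (l' l'' : ℕ → ℝ) (L' L'' : ℝ), FullyMonotonic l' ∧ FullyMonotonic l'' ∧
      AdmissibleWith l' s L' ∧ AdmissibleWith l'' s L'' ∧ L' ≠ L'' := by
  set s : ℕ → ℝ := fun k => if Even (Nat.log 64 k) then 1 else 0 with hs
  have hs01 : ∀ k, s k = 0 ∨ s k = 1 := by
    intro k
    by_cases h : Even (Nat.log 64 k)
    · right; simp [hs, h]
    · left; simp [hs, h]
  have hs0 : ∀ k, 0 ≤ s k := fun k => by rcases hs01 k with h | h <;> rw [h]; norm_num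
  have hs1 : ∀ k, s k ≤ 1 := fun k => by rcases hs01 k with h | h <;> rw [h]; norm_num
  have hC : ∀ k, |s k| ≤ 1 := fun k => abs_le.2 ⟨by linarith [hs0 k], hs1 k⟩
  have hlog : ∀ i k, 64 ^ i ≤ k → k < 64 * 64 ^ i → Nat.log 64 k = i := by
    intro i k h1 h2
    have h3 : 0 < 64 ^ i := by positivity
    exact (Nat.log_eq_iff (Or.inr ⟨by norm_num, by omega⟩)).2 ⟨h1, by rw [pow_succ]; omega⟩
  have hmono : ∀ a : ℕ, StrictMono fun i => 8 * 64 ^ (2 * i + a) := by
    intro a i j hij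
    have : 64 ^ (2 * i + a) < 64 ^ (2 * j + a) := Nat.pow_lt_pow_right (by norm_num) (by omega)
    simp only
    omega
  have hge2 : ∀ a i : ℕ, 2 ≤ 8 * 64 ^ (2 * i + a) := by
    intro a i
    have : 0 < 64 ^ (2 * i + a) := by positivity
    omega
  obtain ⟨l', L', hl', hadm', φ', -, hlim'⟩ := exists_weights hC (hmono 0) (hge2 0)
  obtain ⟨l'', L'', hl'', hadm'', φ'', -, hlim''⟩ := exists_weights hC (hmono 1) (hge2 1)
  refine ⟨s, hs01, l', l'', L', L'', hl', hl'', hadm', hadm'', ?_⟩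
  have h1 : 3 / 4 ≤ L' := by
    refine ge_of_tendsto hlim' (Eventually.of_forall fun i => ?_)
    apply abel_ge hs0 hs1 (by positivity)
    intro k hk1 hk2
    have : Nat.log 64 k = 2 * φ' i + 0 := hlog _ _ hk1 hk2
    have h2 : Even (Nat.log 64 k) := by rw [this]; simp
    simp [hs, h2]
  have h2 : L'' ≤ 1 / 4 := by
    refine le_of_tendsto hlim'' (Eventually.of_forall fun i => ?_)
    have h3 := abel_ge (s := fun k => 1 - s k) (fun k => by linarith [hs1 k])
      (fun k => by linarith [hs0 k]) (p := 64 ^ (2 * φ'' i + 1)) (by positivity) (by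
        intro k hk1 hk2
        have : Nat.log 64 k = 2 * φ'' i + 1 := hlog _ _ hk1 hk2
        have h2 : ¬ Even (Nat.log 64 k) := by
          rw [this, Nat.not_even_iff_odd]; exact ⟨_, rfl⟩
        simp [hs, h2])
    set x : ℝ := 1 - 1 / ((8 * 64 ^ (2 * φ'' i + 1) : ℕ) : ℝ) with hx
    have hN : (2 : ℝ) ≤ ((8 * 64 ^ (2 * φ'' i + 1) : ℕ) : ℝ) := by
      exact_mod_cast hge2 1 (φ'' i)
    have hx0 : 0 ≤ x := by
      have : 1 / ((8 * 64 ^ (2 * φ'' i + 1) : ℕ) : ℝ) ≤ 1 / 2 :=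
        one_div_le_one_div_of_le (by norm_num) hN
      rw [hx]; linarith
    have hx1 : x < 1 := by
      have : 0 < 1 / ((8 * 64 ^ (2 * φ'' i + 1) : ℕ) : ℝ) := by positivity
      rw [hx]; linarith
    have h4 : abel (fun k => 1 - s k) x = 1 - abel s x := by
      have e1 := abel_sub_const hC 1 hx0 hx1
      have e2 : abel (fun k => 1 - s k) x = - abel (fun k => s k - 1) x := by
        rw [abel, abel, ← mul_neg, ← tsum_neg]
        congr 1
        apply tsum_congr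
        intro k
        ring
      rw [e2, e1]; ring
    rw [h4] at h3
    linarith
  intro h
  linarith

end Q93.FullMono
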